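import Pool.Agent.Helper30.PL.Goals

/-!
Packet ROOT of helper30 (MP_b4564f_an).
-/

set_option autoImplicit false

open Filter Topology

namespace Pool.Agent.Helper94.PL

open Pool.Agent.Helper30.PL

theorem root : RootStmt := by
  intro k p hp hp1
  have hpi := Real.pi_pos
  have hk : 1 ≤ k := by
    rcases Nat.eq_zero_or_pos k with h | h
    · subst h
      simp at hp
      linarith
    · exact h
  have hkR : (1 : ℝ) ≤ (k : ℝ) := by exact_mod_cast hk
  have h2k : (0 : ℝ) < 2 * (k : ℝ) + 1 := by linarith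
  have hk1 : (0 : ℝ) < (k : ℝ) + 1 := by linarith
  set θ : ℝ := Real.pi / (2 * k + 1) with hθ
  have hθpos : 0 < θ := by positivity
  have hθmul : (2 * (k : ℝ) + 1) * θ = Real.pi := by rw [hθ]; field_simp
  have hcos : Real.cos (k * Real.pi / (2 * k + 1)) = Real.sin (θ / 2) := by
    rw [← Real.cos_pi_div_two_sub]
    congr 1
    have : (k : ℝ) * Real.pi / (2 * k + 1) = k * θ := by rw [hθ]; ring
    rw [this]
    linarith
  rw [hcos] at hp
  have hθ3 : θ ≤ Real.pi / 3 := by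
    rw [hθ]
    apply div_le_div_of_nonneg_left hpi.le (by norm_num) (by linarith)
  have hp0 : 0 < p := by
    have : 0 < Real.sin (θ / 2) := Real.sin_pos_of_pos_of_lt_pi (by linarith) (by linarith)
    linarith
  set b : ℝ := Real.pi / (k + 1) with hb
  have hbpos : 0 < b := by positivity
  have hbmul : ((k : ℝ) + 1) * b = Real.pi := by rw [hb]; field_simp
  have hb2 : b ≤ Real.pi / 2 := by
    rw [hb]
    apply div_le_div_of_nonneg_left hpi.le (by norm_num) (by linarith)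
  have hθb : θ ≤ b := by
    rw [hθ, hb]
    apply div_le_div_of_nonneg_left hpi.le hk1 (by linarith)
  set Φ : ℝ → ℝ := fun ψ => Real.sin (k * ψ) ^ k * Real.sin ψ - p * Real.sin (((k : ℝ) + 1) * ψ) ^ (k + 1) with hΦ
  have hcont : ContinuousOn Φ (Set.Icc θ b) := by
    apply Continuous.continuousOn
    rw [hΦ]
    fun_prop
  have hS1 : Real.sin (k * θ) = Real.cos (θ / 2) := by
    rw [← Real.sin_pi_div_two_sub]
    congr 1
    linarith
  have hS2 : Real.sin (((k : ℝ) + 1) * θ) = Real.cos (θ / 2) := by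
    have : ((k : ℝ) + 1) * θ = Real.pi / 2 + θ / 2 := by linarith
    rw [this, add_comm, Real.sin_add_pi_div_two]
  have hSpos : 0 < Real.cos (θ / 2) := Real.cos_pos_of_mem_Ioo ⟨by linarith, by linarith⟩
  have hsinθ : Real.sin θ = 2 * Real.sin (θ / 2) * Real.cos (θ / 2) := by
    rw [← Real.sin_two_mul]; congr 1; ring
  have hΦθ : Φ θ < 0 := by
    have : Φ θ = Real.cos (θ / 2) ^ (k + 1) * (2 * Real.sin (θ / 2) - p) := by
      simp only [hΦ]
      rw [hS1, hS2, hsinθ]
      ring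
    rw [this]
    apply mul_neg_of_pos_of_neg
    · positivity
    · linarith
  have hΦb : 0 < Φ b := by
    have h1 : Real.sin (((k : ℝ) + 1) * b) = 0 := by rw [hbmul]; exact Real.sin_pi
    have h2 : Real.sin (k * b) = Real.sin b := by
      have : (k : ℝ) * b = Real.pi - b := by linarith
      rw [this, Real.sin_pi_sub]
    have h3 : 0 < Real.sin b := Real.sin_pos_of_pos_of_lt_pi hbpos (by linarith)
    simp only [hΦ]
    rw [h1, h2]
    have : (0 : ℝ) ^ (k + 1) = 0 := by simp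
    rw [this]
    have : 0 < Real.sin b ^ k * Real.sin b := by positivity
    linarith
  obtain ⟨ψ, hψm, hψ0⟩ := intermediate_value_Icc hθb hcont (show (0 : ℝ) ∈ Set.Icc (Φ θ) (Φ b) from ⟨hΦθ.le, hΦb.le⟩)
  have hψθ : θ < ψ := by
    rcases hψm.1.lt_or_eq with h | h
    · exact h
    · rw [← h] at hψ0; linarith
  have hψb : ψ < b := by
    rcases hψm.2.lt_or_eq with h | h
    · exact h
    · rw [h] at hψ0; linarith
  have hψpos : 0 < ψ := by linarith
  have hsinψ : 0 < Real.sin ψ := Real.sin_pos_of_pos_of_lt_pi hψpos (by linarith)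
  have hk1ψ : ((k : ℝ) + 1) * ψ < Real.pi := by
    rw [← hbmul]
    exact mul_lt_mul_of_pos_left hψb hk1
  have hs : 0 < Real.sin (((k : ℝ) + 1) * ψ) := Real.sin_pos_of_pos_of_lt_pi (by positivity) hk1ψ
  have hdiff : Real.sin (((k : ℝ) + 1) * ψ) < Real.sin (k * ψ) := by
    have h1 : Real.sin (k * ψ) - Real.sin (((k : ℝ) + 1) * ψ) =
        2 * Real.sin ((k * ψ - ((k : ℝ) + 1) * ψ) / 2) * Real.cos ((k * ψ + ((k : ℝ) + 1) * ψ) / 2) :=
      Real.sin_sub_sin _ _
    have h2 : (k * ψ - ((k : ℝ) + 1) * ψ) / 2 = - (ψ / 2) := by ring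
    have h3 : (k * ψ + ((k : ℝ) + 1) * ψ) / 2 = (2 * (k : ℝ) + 1) * ψ / 2 := by ring
    rw [h2, h3, Real.sin_neg] at h1
    have h4 : 0 < Real.sin (ψ / 2) := Real.sin_pos_of_pos_of_lt_pi (by linarith) (by linarith)
    have h5 : Real.pi / 2 < (2 * (k : ℝ) + 1) * ψ / 2 := by
      have : (2 * (k : ℝ) + 1) * θ < (2 * (k : ℝ) + 1) * ψ := mul_lt_mul_of_pos_left hψθ h2k
      linarith
    have h6 : (2 * (k : ℝ) + 1) * ψ / 2 < Real.pi := by
      nlinarith
    have h7 : Real.cos ((2 * (k : ℝ) + 1) * ψ / 2) < 0 :=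
      Real.cos_neg_of_pi_div_two_lt_of_lt h5 (by linarith)
    nlinarith [mul_pos_of_neg_of_neg (neg_lt_zero.mpr h4) h7]
  set s : ℝ := Real.sin (((k : ℝ) + 1) * ψ) with hsdef
  set t : ℝ := Real.sin (k * ψ) with htdef
  have hr : 1 < t / s := by rw [one_lt_div hs]; exact hdiff
  refine ⟨((t / s : ℝ) : ℂ) * Complex.exp (ψ * Complex.I), ?_, ?_⟩
  · rw [norm_mul, Complex.norm_exp_ofReal_mul_I, mul_one, Complex.norm_real, Real.norm_eq_abs]
    exact lt_of_lt_of_le hr (le_abs_self _)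
  · -- the main identity
    have hsC : (s : ℂ) ≠ 0 := by exact_mod_cast hs.ne'
    have key : (s : ℂ) * Complex.exp (k * ψ * Complex.I) - (t : ℂ) * Complex.exp (((k : ℂ) + 1) * ψ * Complex.I)
        = (Real.sin ψ : ℂ) := by
      have e1 : Complex.exp (k * ψ * Complex.I) = (Real.cos (k * ψ) : ℂ) + (t : ℂ) * Complex.I := by
        have : (k : ℂ) * ψ * Complex.I = ((k * ψ : ℝ) : ℂ) * Complex.I := by push_cast; ring
        rw [this, Complex.exp_mul_I, ← Complex.ofReal_cos, ← Complex.ofReal_sin]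
      have e2 : Complex.exp (((k : ℂ) + 1) * ψ * Complex.I) = (Real.cos (((k : ℝ) + 1) * ψ) : ℂ) + (s : ℂ) * Complex.I := by
        have : ((k : ℂ) + 1) * ψ * Complex.I = ((((k : ℝ) + 1) * ψ : ℝ) : ℂ) * Complex.I := by push_cast; ring
        rw [this, Complex.exp_mul_I, ← Complex.ofReal_cos, ← Complex.ofReal_sin]
      rw [e1, e2]
      have e3 : Real.sin ψ = s * Real.cos (k * ψ) - Real.cos (((k : ℝ) + 1) * ψ) * t := by
        rw [hsdef, htdef, ← Real.sin_sub]
        congr 1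
        ring
      rw [e3]
      push_cast
      ring
    have hΦ0 : t ^ k * Real.sin ψ = p * s ^ (k + 1) := by
      have : Φ ψ = t ^ k * Real.sin ψ - p * s ^ (k + 1) := rfl
      rw [this] at hψ0
      linarith
    have hΦC : (t : ℂ) ^ k * (Real.sin ψ : ℂ) = (p : ℂ) * (s : ℂ) ^ (k + 1) := by
      exact_mod_cast congrArg (fun x : ℝ => (x : ℂ)) hΦ0
    have hexpk : Complex.exp (k * ψ * Complex.I) = Complex.exp (ψ * Complex.I) ^ k := by
      rw [← Complex.exp_nat_mul]; congr 1; ring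
    have hexpk1 : Complex.exp (((k : ℂ) + 1) * ψ * Complex.I) = Complex.exp (ψ * Complex.I) ^ (k + 1) := by
      rw [← Complex.exp_nat_mul]; congr 1; push_cast; ring
    rw [hexpk, hexpk1] at key
    set E : ℂ := Complex.exp (ψ * Complex.I) with hE
    push_cast
    have hne : (s : ℂ) ^ (k + 1) ≠ 0 := pow_ne_zero _ hsC
    have : ((t : ℂ) / (s : ℂ) * E) ^ (k + 1) - ((t : ℂ) / (s : ℂ) * E) ^ k + (p : ℂ)
        = ((t : ℂ) ^ k * ((t : ℂ) * E ^ (k + 1) - (s : ℂ) * E ^ k) + (p : ℂ) * (s : ℂ) ^ (k + 1)) / (s : ℂ) ^ (k + 1) := by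
      rw [mul_pow, mul_pow, div_pow, div_pow]
      field_simp
      ring
    rw [this]
    have h9 : (t : ℂ) * E ^ (k + 1) - (s : ℂ) * E ^ k = - (Real.sin ψ : ℂ) := by
      rw [← key]; ring
    rw [h9, ← hΦC]
    simp

end Pool.Agent.Helper94.PL
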