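import Pool.Agent.Helper82.PL.Defs

/-!
Packet Ext: a function that vanishes off a compact subset of an open set and is locally
Lipschitz there is Lipschitz.
-/

set_option autoImplicit false

open MeasureTheory Set Filter Topology Metric

namespace Pool.Agent.Helper94.PL

open Pool.Agent.Helper82.PL

theorem ext : stmtExt := by
  intro S K f hS hK hKS hz hf
  -- locally Lipschitz everywhere
  have hloc : LocallyLipschitz f := by
    intro x
    by_cases hx : x ∈ S
    · obtain ⟨L, t, ht, hL⟩ := hf hx
      rw [hS.nhdsWithin_eq hx] at ht
      exact ⟨L, t, ht, hL⟩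
    · have hx' : x ∈ Kᶜ := fun h => hx (hKS h)
      refine ⟨0, Kᶜ, hK.isClosed.isOpen_compl.mem_nhds hx', ?_⟩
      intro a ha b hb
      rw [hz a ha, hz b hb]
      simp
  have hcont : Continuous f := hloc.continuous
  obtain ⟨R, hR⟩ := hK.isBounded.subset_closedBall (0 : E2)
  obtain ⟨L, hL⟩ := (hloc.locallyLipschitzOn (s := closedBall (0 : E2) (R + 1))).exists_lipschitzOnWith_of_compact
    (isCompact_closedBall (0 : E2) (R + 1))
  obtain ⟨M, hM⟩ := hK.exists_bound_of_continuousOn hcont.continuousOn
  -- a bound for one point in the ball and one point outside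
  have key : ∀ x y : E2, x ∈ closedBall (0 : E2) (R + 1) → y ∉ closedBall (0 : E2) (R + 1) →
      |f x - f y| ≤ max (L : ℝ) |M| * dist x y := by
    intro x y hx hy
    have hyK : y ∉ K := by
      intro h
      apply hy
      have := hR h
      rw [mem_closedBall] at this ⊢
      linarith
    rw [hz y hyK, sub_zero]
    by_cases hxK : x ∈ K
    · have h1 : |f x| ≤ |M| := (by simpa using hM x hxK : |f x| ≤ M).trans (le_abs_self M)
      have h2 : 1 ≤ dist x y := by
        have h3 := hR hxK
        rw [mem_closedBall] at h3 hy
        have h4 := dist_triangle y x 0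
        rw [dist_comm y x] at h4
        push Not at hy
        linarith
      calc |f x| ≤ |M| * 1 := by rw [mul_one]; exact h1
        _ ≤ |M| * dist x y := by gcongr
        _ ≤ max (L : ℝ) |M| * dist x y := by gcongr; exact le_max_right _ _
    · rw [hz x hxK]
      simp only [abs_zero]
      positivity
  refine ⟨⟨max (L : ℝ) |M|, le_max_of_le_left L.2⟩, ?_⟩
  apply LipschitzWith.of_dist_le_mul
  intro x y
  rw [Real.dist_eq]
  change |f x - f y| ≤ max (L : ℝ) |M| * dist x y
  by_cases hx : x ∈ closedBall (0 : E2) (R + 1)
  · by_cases hy : y ∈ closedBall (0 : E2) (R + 1)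
    · have := hL.dist_le_mul x hx y hy
      rw [Real.dist_eq] at this
      refine this.trans ?_
      gcongr
      exact le_max_left _ _
    · exact key x y hx hy
  · by_cases hy : y ∈ closedBall (0 : E2) (R + 1)
    · rw [abs_sub_comm, dist_comm]
      exact key y x hy hx
    · have hxK : x ∉ K := by
        intro h
        apply hx
        have := hR h
        rw [mem_closedBall] at this ⊢
        linarith
      have hyK : y ∉ K := by
        intro h
        apply hy
        have := hR h
        rw [mem_closedBall] at this ⊢
        linarith
      rw [hz x hxK, hz y hyK]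
      simp only [sub_zero, abs_zero]
      positivity

end Pool.Agent.Helper94.PL
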